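import Pool.Agent.H171R2.Tri.Core

/-!
# Task T1: laminar packing of T-cuts
-/

set_option autoImplicit false
set_option linter.unusedSectionVars false

namespace Pool.Agent.H171R2.Tri
namespace T1

open Finset

variable {N E : Type} [DecidableEq N] [DecidableEq E]

def dl (a x : N) : ZMod 2 := if a = x then 1 else 0

lemma z2 (a : ZMod 2) : a + a = 0 := CharTwo.add_self_eq_zero a

lemma sum_sd {M : Type*} [AddCommMonoid M] (g : E → M) (J X : Finset E) :
    ∑ f ∈ symmDiff J X, g f + (∑ f ∈ J ∩ X, g f + ∑ f ∈ J ∩ X, g f)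
      = ∑ f ∈ J, g f + ∑ f ∈ X, g f := by
  have h1 : ∑ f ∈ J, g f = ∑ f ∈ J ∩ X, g f + ∑ f ∈ J \ X, g f :=
    (Finset.sum_inter_add_sum_sdiff J X g).symm
  have h2 : ∑ f ∈ X, g f = ∑ f ∈ J ∩ X, g f + ∑ f ∈ X \ J, g f := by
    rw [Finset.inter_comm]
    exact (Finset.sum_inter_add_sum_sdiff X J g).symm
  have h3 : ∑ f ∈ symmDiff J X, g f = ∑ f ∈ J \ X, g f + ∑ f ∈ X \ J, g f := by
    rw [symmDiff_def, Finset.sup_eq_union, Finset.sum_union]
    exact disjoint_sdiff_sdiff
  rw [h1, h2, h3]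
  abel

lemma bd_sd (G : MG N E) (J X : Finset E) (x : N) :
    G.bd (symmDiff J X) x = G.bd J x + G.bd X x := by
  have h := sum_sd (fun f => ((if G.l f = x then 1 else 0) + (if G.r f = x then 1 else 0) : ZMod 2))
    J X
  unfold MG.bd
  rw [← h, z2, add_zero]

lemma bd_empty (G : MG N E) (x : N) : G.bd ∅ x = 0 := by simp [MG.bd]

lemma bd_single (G : MG N E) (f : E) (x : N) : G.bd {f} x = dl (G.l f) x + dl (G.r f) x := by
  simp [MG.bd, dl]

/-- cost with signs -/
def sg (c : E → ℕ) (J X : Finset E) : ℤ := ∑ f ∈ X, (if f ∈ J then -(c f : ℤ) else (c f : ℤ))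

lemma cost_sd (c : E → ℕ) (J X : Finset E) :
    ((∑ f ∈ symmDiff J X, c f : ℕ) : ℤ) = ((∑ f ∈ J, c f : ℕ) : ℤ) + sg c J X := by
  have h := sum_sd (fun f => (c f : ℤ)) J X
  have h2 : sg c J X = ∑ f ∈ X, (c f : ℤ) - 2 * ∑ f ∈ J ∩ X, (c f : ℤ) := by
    unfold sg
    have : ∑ f ∈ J ∩ X, (c f : ℤ) = ∑ f ∈ X, (if f ∈ J then (c f : ℤ) else 0) := by
      rw [Finset.inter_comm, Finset.sum_ite_mem]
    rw [this, Finset.mul_sum, ← Finset.sum_sub_distrib]
    refine Finset.sum_congr rfl fun f _ => ?_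
    split_ifs <;> ring
  push_cast
  rw [h2]
  linarith

lemma cost_zero (c : E → ℕ) (J P : Finset E) (hP : ∀ f ∈ P, c f = 0) :
    ∑ f ∈ symmDiff J P, c f = ∑ f ∈ J, c f := by
  have h := sum_sd c J P
  have h1 : ∑ f ∈ P, c f = 0 := Finset.sum_eq_zero hP
  have h2 : ∑ f ∈ J ∩ P, c f = 0 :=
    Finset.sum_eq_zero fun f hf => hP f (Finset.mem_inter.1 hf).2
  omega

lemma cost_single (c : E → ℕ) (J : Finset E) (f : E) (hf : f ∈ J) :
    ∑ g ∈ symmDiff J {f}, c g + c f = ∑ g ∈ J, c g := by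
  have h := sum_sd c J {f}
  have h2 : J ∩ {f} = {f} := by
    ext g; simp only [Finset.mem_inter, Finset.mem_singleton]
    constructor
    · exact fun h => h.2
    · rintro rfl; exact ⟨hf, rfl⟩
  rw [h2, Finset.sum_singleton] at h
  omega

open Classical in
lemma sum_bd (G : MG N E) (U : Finset N) (J : Finset E) :
    ∑ x ∈ U, G.bd J x = ((J.filter (fun f => G.Crosses U f)).card : ZMod 2) := by
  unfold MG.bd
  rw [Finset.sum_comm, Finset.card_filter]
  push_cast
  refine Finset.sum_congr rfl fun f _ => ?_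
  rw [Finset.sum_add_distrib, Finset.sum_ite_eq, Finset.sum_ite_eq]
  unfold MG.Crosses
  by_cases h1 : G.l f ∈ U <;> by_cases h2 : G.r f ∈ U <;> simp [h1, h2, z2]

lemma sum_dl (U : Finset N) (a : N) : ∑ x ∈ U, dl a x = if a ∈ U then 1 else 0 := by
  unfold dl
  rw [Finset.sum_ite_eq]

/-- the path lemma -/
lemma path (G : MG N E) (R : Finset N) : ∀ (n : ℕ) (X : Finset E) (y : N), X.card = n →
    (∀ v, v ∉ R → G.bd X v = dl y v) →
    ∃ r ∈ R, ∃ Z ⊆ X, (∀ v, G.bd Z v = dl y v + dl r v) ∧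
      (Z.filter (fun f => G.l f ∈ R ∨ G.r f ∈ R)).card ≤ 1 ∧ (y ∈ R → Z = ∅) := by
  intro n
  induction n with
  | zero =>
    intro X y hX h
    have hX0 : X = ∅ := Finset.card_eq_zero.1 hX
    by_cases hy : y ∈ R
    · refine ⟨y, hy, ∅, Finset.empty_subset _, fun v => ?_, by simp, fun _ => rfl⟩
      rw [bd_empty, z2]
    · exfalso
      have := h y hy
      rw [hX0, bd_empty] at this
      simp [dl] at this
  | succ n ih =>
    intro X y hX h
    by_cases hy : y ∈ R
    · refine ⟨y, hy, ∅, Finset.empty_subset _, fun v => ?_, by simp, fun _ => rfl⟩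
      rw [bd_empty, z2]
    · have h1 : G.bd X y = 1 := by rw [h y hy]; simp [dl]
      have h2 : ∃ f ∈ X, ((if G.l f = y then 1 else 0) + (if G.r f = y then 1 else 0) : ZMod 2) ≠ 0 := by
        by_contra hcon
        push Not at hcon
        have : G.bd X y = 0 := Finset.sum_eq_zero hcon
        rw [this] at h1
        exact absurd h1 (by decide)
      obtain ⟨f, hfX, hf⟩ := h2
      obtain ⟨z, hz⟩ : ∃ z, (∀ v, dl (G.l f) v + dl (G.r f) v = dl y v + dl z v) ∧
          ((G.l f ∈ R ∨ G.r f ∈ R) → z ∈ R) := by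
        by_cases ha : G.l f = y
        · refine ⟨G.r f, fun v => by rw [ha], ?_⟩
          rintro (h | h)
          · rw [ha] at h; exact absurd h hy
          · exact h
        · by_cases hb : G.r f = y
          · refine ⟨G.l f, fun v => by rw [hb, add_comm], ?_⟩
            rintro (h | h)
            · exact h
            · rw [hb] at h; exact absurd h hy
          · simp [ha, hb] at hf
      have hX' : (symmDiff X {f}) = X.erase f := by
        ext g
        simp only [Finset.mem_symmDiff, Finset.mem_singleton, Finset.mem_erase]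
        constructor
        · rintro (⟨h1, h2⟩ | ⟨h1, h2⟩)
          · exact ⟨h2, h1⟩
          · subst h1; exact absurd hfX h2
        · rintro ⟨h1, h2⟩; exact Or.inl ⟨h2, h1⟩
      have hcard : (X.erase f).card = n := by
        rw [Finset.card_erase_of_mem hfX, hX]; rfl
      obtain ⟨r, hr, Z, hZ, hZb, hZc, hZe⟩ := ih (X.erase f) z hcard (by
        intro v hv
        rw [← hX', bd_sd, bd_single, h v hv, hz.1 v, ← add_assoc, z2, zero_add])
      have hfZ : f ∉ Z := fun hmem => by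
        have := hZ hmem
        simp at this
      have hins : symmDiff Z {f} = insert f Z := by
        ext g
        simp only [Finset.mem_symmDiff, Finset.mem_singleton, Finset.mem_insert]
        constructor
        · rintro (⟨h1, h2⟩ | ⟨h1, h2⟩)
          · exact Or.inr h1
          · exact Or.inl h1
        · rintro (h1 | h1)
          · right; exact ⟨h1, by rw [h1]; exact hfZ⟩
          · left; exact ⟨h1, fun h2 => hfZ (h2 ▸ h1)⟩
      refine ⟨r, hr, insert f Z, ?_, fun v => ?_, ?_, fun h => absurd h hy⟩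
      · intro g hg
        rcases Finset.mem_insert.1 hg with h | h
        · rw [h]; exact hfX
        · exact Finset.mem_of_mem_erase (hZ h)
      · rw [← hins, bd_sd, bd_single, hZb v, hz.1 v]
        have := z2 (dl z v)
        linear_combination this
      · by_cases hzR : z ∈ R
        · rw [hZe hzR]
          refine (Finset.card_filter_le _ _).trans ?_
          simp
        · rw [Finset.filter_insert, if_neg (fun h => hzR (hz.2 h))]
          exact hZc

lemma crosses_ends (G : MG N E) (U : Finset N) (f : E) (h : G.Crosses U f) :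
    ∃ x ∈ U, ∃ y, y ∉ U ∧ ∀ v, dl (G.l f) v + dl (G.r f) v = dl x v + dl y v := by
  unfold MG.Crosses at h
  by_cases h1 : G.l f ∈ U
  · have h2 : G.r f ∉ U := fun h2 => h ⟨fun _ => h2, fun _ => h1⟩
    exact ⟨_, h1, _, h2, fun v => rfl⟩
  · have h2 : G.r f ∈ U := by
      by_contra h2
      exact h ⟨fun h3 => absurd h3 h1, fun h3 => absurd h3 h2⟩
    exact ⟨_, h2, _, h1, fun v => add_comm _ _⟩

lemma sd_single_insert (Z : Finset E) (f : E) (hf : f ∉ Z) : symmDiff Z {f} = insert f Z := by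
  ext g
  simp only [Finset.mem_symmDiff, Finset.mem_singleton, Finset.mem_insert]
  constructor
  · rintro (⟨h1, h2⟩ | ⟨h1, h2⟩)
    · exact Or.inr h1
    · exact Or.inl h1
  · rintro (h1 | h1)
    · right; exact ⟨h1, by rw [h1]; exact hf⟩
    · left; exact ⟨h1, fun h2 => hf (h2 ▸ h1)⟩

lemma sd_single_erase (X : Finset E) (f : E) (hf : f ∈ X) : symmDiff X {f} = X.erase f := by
  ext g
  simp only [Finset.mem_symmDiff, Finset.mem_singleton, Finset.mem_erase]
  constructor
  · rintro (⟨h1, h2⟩ | ⟨h1, h2⟩)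
    · exact ⟨h2, h1⟩
    · subst h1; exact absurd hf h2
  · rintro ⟨h1, h2⟩; exact Or.inl ⟨h2, h1⟩

open Classical in
lemma excursion (G : MG N E) (U : Finset N) (a : N) (ha : a ∉ U) (X0 : Finset E)
    (hbd : ∀ v, v ∉ U → v ≠ a → G.bd X0 v = 0) (f1 : E) (hf1 : f1 ∈ X0) (hc1 : G.Crosses U f1)
    (hX0 : ∀ f ∈ X0, ¬ (G.l f ∈ U ∧ G.r f ∈ U)) :
    ∃ x ∈ U, ∃ r, (r ∈ U ∨ r = a) ∧ ∃ Z ⊆ X0, f1 ∈ Z ∧ (∀ v, G.bd Z v = dl x v + dl r v) ∧
      (r ∈ U → (Z.filter (fun f => G.Crosses U f)).card = 2) ∧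
      (r ∉ U → (Z.filter (fun f => G.Crosses U f)).card = 1) := by
  obtain ⟨x, hx, y, hy, hxy⟩ := crosses_ends G U f1 hc1
  obtain ⟨r, hr, Z, hZ, hZb, hZc, -⟩ := path G (insert a U) (X0.erase f1).card (X0.erase f1) y rfl (by
    intro v hv
    have hv1 : v ≠ a := fun h => hv (by rw [h]; exact Finset.mem_insert_self _ _)
    have hv2 : v ∉ U := fun h => hv (Finset.mem_insert_of_mem h)
    rw [← sd_single_erase X0 f1 hf1, bd_sd, bd_single, hxy v, hbd v hv2 hv1]
    have : dl x v = 0 := by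
      unfold dl; rw [if_neg]; rintro rfl; exact hv2 hx
    rw [this]; ring)
  have hfZ : f1 ∉ Z := fun h => by
    have := hZ h
    simp at this
  have hZc' : (Z.filter (fun f => G.Crosses U f)).card ≤ 1 := by
    refine (Finset.card_le_card ?_).trans hZc
    intro f hf
    rw [Finset.mem_filter] at hf ⊢
    refine ⟨hf.1, ?_⟩
    have h2 := hf.2
    unfold MG.Crosses at h2
    by_cases h1 : G.l f ∈ U
    · exact Or.inl (Finset.mem_insert_of_mem h1)
    · right
      refine Finset.mem_insert_of_mem ?_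
      by_contra h3
      exact h2 ⟨fun h4 => absurd h4 h1, fun h4 => absurd h4 h3⟩
  have hbdZ : ∀ v, G.bd (insert f1 Z) v = dl x v + dl r v := by
    intro v
    rw [← sd_single_insert Z f1 hfZ, bd_sd, bd_single, hZb v, hxy v]
    have := z2 (dl y v)
    linear_combination this
  have hcard : ((insert f1 Z).filter (fun f => G.Crosses U f)).card
      = (Z.filter (fun f => G.Crosses U f)).card + 1 := by
    rw [Finset.filter_insert, if_pos hc1, Finset.card_insert_of_notMem]
    intro h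
    exact hfZ (Finset.mem_filter.1 h).1
  have hpar := sum_bd G U (insert f1 Z)
  rw [Finset.sum_congr rfl (fun v _ => hbdZ v), Finset.sum_add_distrib, sum_dl, sum_dl, if_pos hx]
    at hpar
  refine ⟨x, hx, r, ?_, insert f1 Z, ?_, Finset.mem_insert_self _ _, hbdZ, ?_, ?_⟩
  · rcases Finset.mem_insert.1 hr with h | h
    · exact Or.inr h
    · exact Or.inl h
  · intro g hg
    rcases Finset.mem_insert.1 hg with h | h
    · rw [h]; exact hf1
    · exact Finset.mem_of_mem_erase (hZ h)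
  · intro hrU
    rw [if_pos hrU] at hpar
    have h0 : ((((insert f1 Z).filter (fun f => G.Crosses U f)).card : ℕ) : ZMod 2) = 0 := by
      rw [← hpar]; decide
    rw [ZMod.natCast_eq_zero_iff_even] at h0
    rw [hcard] at h0 ⊢
    obtain ⟨q, hq⟩ := h0
    omega
  · intro hrU
    rw [if_neg hrU] at hpar
    have h0 : ((((insert f1 Z).filter (fun f => G.Crosses U f)).card : ℕ) : ZMod 2) = 1 := by
      rw [← hpar]; ring
    rw [ZMod.natCast_eq_one_iff_odd] at h0
    rw [hcard] at h0 ⊢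
    obtain ⟨q, hq⟩ := h0
    omega

lemma sd_sub (X Z : Finset E) (h : Z ⊆ X) : symmDiff X Z = X \ Z := by
  ext g
  simp only [Finset.mem_symmDiff, Finset.mem_sdiff]
  constructor
  · rintro (h1 | h1)
    · exact h1
    · exact absurd (h h1.1) h1.2
  · exact fun h1 => Or.inl h1

lemma sd_disj (X Z : Finset E) (h : Disjoint X Z) : symmDiff X Z = X ∪ Z := by
  rw [Finset.disjoint_left] at h
  ext g
  simp only [Finset.mem_symmDiff, Finset.mem_union]
  constructor
  · rintro (h1 | h1)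
    · exact Or.inl h1.1
    · exact Or.inr h1.1
  · rintro (h1 | h1)
    · exact Or.inl ⟨h1, h h1⟩
    · exact Or.inr ⟨h1, fun h2 => h h2 h1⟩

open Classical in
lemma two_crossings (G : MG N E) (U : Finset N) (a b : N) (ha : a ∉ U) (hb : b ∈ U)
    (X : Finset E) (hX : ∀ v, G.bd X v = dl a v + dl b v)
    (hn : 2 ≤ (X.filter (fun f => G.Crosses U f)).card) :
    ∃ Z ⊆ X, ∃ x ∈ U, ∃ x' ∈ U, (∀ v, G.bd Z v = dl x v + dl x' v) ∧
      (Z.filter (fun f => G.Crosses U f)).card = 2 := by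
  set X0 := X.filter (fun f => ¬ (G.l f ∈ U ∧ G.r f ∈ U)) with hX0def
  have hX0sub : X0 ⊆ X := Finset.filter_subset _ _
  have hX0 : ∀ f ∈ X0, ¬ (G.l f ∈ U ∧ G.r f ∈ U) := fun f hf => (Finset.mem_filter.1 hf).2
  have hcr : ∀ f ∈ X, G.Crosses U f → f ∈ X0 := by
    intro f hf hc
    refine Finset.mem_filter.2 ⟨hf, ?_⟩
    rintro ⟨h1, h2⟩
    exact hc ⟨fun _ => h2, fun _ => h1⟩
  have hbd : ∀ v, v ∉ U → v ≠ a → G.bd X0 v = 0 := by
    intro v hv hva
    have h1 : G.bd X0 v = G.bd X v := by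
      unfold MG.bd
      rw [hX0def, Finset.sum_filter]
      refine Finset.sum_congr rfl fun f _ => ?_
      by_cases h : G.l f ∈ U ∧ G.r f ∈ U
      · rw [if_neg (not_not.2 h), if_neg, if_neg]
        · ring
        · rintro rfl; exact hv h.2
        · rintro rfl; exact hv h.1
      · rw [if_pos h]
    rw [h1, hX v]
    have h2 : dl a v = 0 := by unfold dl; rw [if_neg (Ne.symm hva)]
    have h3 : dl b v = 0 := by
      unfold dl; rw [if_neg]; rintro rfl; exact hv hb
    rw [h2, h3, add_zero]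
  obtain ⟨f1, hf1⟩ : (X.filter (fun f => G.Crosses U f)).Nonempty := by
    rw [← Finset.card_pos]; omega
  rw [Finset.mem_filter] at hf1
  obtain ⟨x, hx, r, hr, Z, hZ, hfZ, hZb, hZ2, hZ1⟩ :=
    excursion G U a ha X0 hbd f1 (hcr f1 hf1.1 hf1.2) hf1.2 hX0
  by_cases hrU : r ∈ U
  · exact ⟨Z, hZ.trans hX0sub, x, hx, r, hrU, hZb, hZ2 hrU⟩
  have hra : r = a := hr.resolve_left hrU
  have hZ1' := hZ1 hrU
  obtain ⟨f2, hf2⟩ : ((X.filter (fun f => G.Crosses U f)) \ (Z.filter (fun f => G.Crosses U f))).Nonempty := by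
    rw [← Finset.card_pos]
    have := Finset.le_card_sdiff (Z.filter (fun f => G.Crosses U f)) (X.filter (fun f => G.Crosses U f))
    omega
  rw [Finset.mem_sdiff, Finset.mem_filter, Finset.mem_filter] at hf2
  have hf2Z : f2 ∉ Z := fun h => hf2.2 ⟨h, hf2.1.2⟩
  obtain ⟨x2, hx2, r2, hr2, Z2, hZZ2, hfZ2, hZb2, hZ22, hZ21⟩ :=
    excursion G U a ha (X0 \ Z) (by
      intro v hv hva
      rw [← sd_sub X0 Z hZ, bd_sd, hbd v hv hva, hZb v, hra]
      have h2 : dl a v = 0 := by unfold dl; rw [if_neg (Ne.symm hva)]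
      have h3 : dl x v = 0 := by
        unfold dl; rw [if_neg]; rintro rfl; exact hv hx
      rw [h2, h3]; ring) f2 (Finset.mem_sdiff.2 ⟨hcr f2 hf2.1.1 hf2.1.2, hf2Z⟩) hf2.1.2
      (fun f hf => hX0 f (Finset.mem_sdiff.1 hf).1)
  have hZ2sub : Z2 ⊆ X := fun f hf => hX0sub (Finset.mem_sdiff.1 (hZZ2 hf)).1
  by_cases hr2U : r2 ∈ U
  · exact ⟨Z2, hZ2sub, x2, hx2, r2, hr2U, hZb2, hZ22 hr2U⟩
  have hr2a : r2 = a := hr2.resolve_left hr2U
  have hdisj : Disjoint Z Z2 := by
    rw [Finset.disjoint_right]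
    intro f hf
    exact (Finset.mem_sdiff.1 (hZZ2 hf)).2
  refine ⟨Z ∪ Z2, Finset.union_subset (hZ.trans hX0sub) hZ2sub, x, hx, x2, hx2, fun v => ?_, ?_⟩
  · rw [← sd_disj Z Z2 hdisj, bd_sd, hZb v, hZb2 v, hra, hr2a]
    have := z2 (dl a v)
    linear_combination this
  · rw [Finset.filter_union, Finset.card_union_of_disjoint, hZ1', hZ21 hr2U]
    exact Finset.disjoint_filter_filter hdisj

lemma sg_sub (c : E → ℕ) (J X Z : Finset E) (h : Z ⊆ X) :
    sg c J (X \ Z) = sg c J X - sg c J Z := by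
  unfold sg
  rw [← Finset.sum_sdiff h]; ring

lemma sg_even (c : E → ℕ) (J Z : Finset E) (h : Even (∑ f ∈ Z, c f)) : Even (sg c J Z) := by
  have h1 := cost_sd c J Z
  have h2 := sum_sd c J Z
  obtain ⟨q, hq⟩ := h
  refine ⟨(q : ℤ) - ∑ f ∈ J ∩ Z, (c f : ℤ), ?_⟩
  have h3 : ((∑ f ∈ symmDiff J Z, c f : ℕ) : ℤ) +
      (((∑ f ∈ J ∩ Z, c f : ℕ) : ℤ) + ((∑ f ∈ J ∩ Z, c f : ℕ) : ℤ))
      = ((∑ f ∈ J, c f : ℕ) : ℤ) + ((∑ f ∈ Z, c f : ℕ) : ℤ) := by exact_mod_cast h2
  have h4 : ((∑ f ∈ Z, c f : ℕ) : ℤ) = q + q := by exact_mod_cast hq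
  have h5 : ((∑ f ∈ J ∩ Z, c f : ℕ) : ℤ) = ∑ f ∈ J ∩ Z, (c f : ℤ) := by push_cast; rfl
  rw [h5, h4] at h3
  linarith

open Classical in
lemma excess (G : MG N E) (c : E → ℕ) (U : Finset N) (a b : N) (J : Finset E) (tau : ℕ)
    (hzero : ∀ x ∈ U, ∃ P : Finset E, (∀ f ∈ P, c f = 0) ∧ ∀ v, G.bd P v = dl x v + dl b v)
    (hcross : ∀ f, G.Crosses U f → 0 < c f)
    (hJ : ∀ f ∈ J, ¬ G.Crosses U f)
    (hmin : ∀ J' : Finset E, (∀ v, G.bd J' v = G.bd J v) → ∑ f ∈ J, c f ≤ ∑ f ∈ J', c f)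
    (hmin2 : ∀ J' : Finset E, (∀ v, G.bd J' v = G.bd J v) → ∑ f ∈ J', c f = ∑ f ∈ J, c f →
      ∀ f ∈ J', ¬ G.Crosses U f)
    (htau : ∀ F : Finset E, (∀ v, G.bd F v = G.bd J v + (dl a v + dl b v)) → tau ≤ ∑ f ∈ F, c f)
    (hev : ∀ X : Finset E, (∀ v, G.bd X v = 0) → Even (∑ f ∈ X, c f))
    (ha : a ∉ U) (hb : b ∈ U) :
    ∀ (n : ℕ) (X : Finset E), (X.filter (fun f => G.Crosses U f)).card = n →
      (∀ v, G.bd X v = dl a v + dl b v) →
      (tau : ℤ) - ((∑ f ∈ J, c f : ℕ) : ℤ) + ((n : ℤ) - 1) ≤ sg c J X := by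
  intro n
  induction n using Nat.strong_induction_on with
  | _ n ih =>
  intro X hXn hX
  have hpar := sum_bd G U X
  rw [Finset.sum_congr rfl (fun v _ => hX v), Finset.sum_add_distrib, sum_dl, sum_dl, if_neg ha,
    if_pos hb, hXn, zero_add] at hpar
  have hodd : Odd n := (ZMod.natCast_eq_one_iff_odd).1 hpar.symm
  by_cases hn1 : n = 1
  · have h1 := htau (symmDiff J X) (fun v => by rw [bd_sd, hX v])
    have h2 := cost_sd c J X
    have h3 : (tau : ℤ) ≤ ((∑ f ∈ symmDiff J X, c f : ℕ) : ℤ) := by exact_mod_cast h1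
    rw [hn1]; push_cast at *; linarith
  have hn2 : 2 ≤ n := by
    obtain ⟨q, hq⟩ := hodd; omega
  obtain ⟨Z, hZX, x, hx, x', hx', hZb, hZ2⟩ := two_crossings G U a b ha hb X hX (by rw [hXn]; exact hn2)
  obtain ⟨P1, hP1, hP1b⟩ := hzero x hx
  obtain ⟨P2, hP2, hP2b⟩ := hzero x' hx'
  set P := symmDiff P1 P2 with hPdef
  have hP : ∀ f ∈ P, c f = 0 := by
    intro f hf
    rw [hPdef, Finset.mem_symmDiff] at hf
    rcases hf with h | h
    · exact hP1 f h.1
    · exact hP2 f h.1
  have hPb : ∀ v, G.bd P v = dl x v + dl x' v := by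
    intro v
    rw [hPdef, bd_sd, hP1b, hP2b]
    have := z2 (dl b v)
    linear_combination this
  have hPc : ∀ f, G.Crosses U f → f ∉ P := fun f hf hfP => by
    have := hP f hfP
    have := hcross f hf
    omega
  -- the sign cost of Z
  have hJ1b : ∀ v, G.bd (symmDiff (symmDiff J Z) P) v = G.bd J v := by
    intro v
    rw [bd_sd, bd_sd, hZb, hPb]
    have h1 := z2 (dl x v)
    have h2 := z2 (dl x' v)
    linear_combination h1 + h2
  have hcost1 : ((∑ f ∈ symmDiff (symmDiff J Z) P, c f : ℕ) : ℤ)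
      = ((∑ f ∈ J, c f : ℕ) : ℤ) + sg c J Z := by
    rw [cost_zero c _ P hP, cost_sd]
  have hge0 : 0 ≤ sg c J Z := by
    have h1 := hmin _ hJ1b
    have h2 : ((∑ f ∈ J, c f : ℕ) : ℤ) ≤ ((∑ f ∈ symmDiff (symmDiff J Z) P, c f : ℕ) : ℤ) := by
      exact_mod_cast h1
    linarith
  have hne0 : sg c J Z ≠ 0 := by
    intro h0
    rw [h0, add_zero] at hcost1
    have h1 := hmin2 _ hJ1b (by exact_mod_cast hcost1)
    obtain ⟨f, hf⟩ : (Z.filter (fun f => G.Crosses U f)).Nonempty := by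
      rw [← Finset.card_pos]; omega
    rw [Finset.mem_filter] at hf
    refine h1 f ?_ hf.2
    rw [Finset.mem_symmDiff]
    left
    refine ⟨?_, hPc f hf.2⟩
    rw [Finset.mem_symmDiff]
    exact Or.inr ⟨hf.1, fun h => hJ f h hf.2⟩
  have heven : Even (sg c J Z) := by
    refine sg_even c J Z ?_
    have h1 := hev (symmDiff Z P) (fun v => by
      rw [bd_sd, hZb, hPb]; exact z2 _)
    rwa [cost_zero c Z P hP] at h1
  have hge2 : 2 ≤ sg c J Z := by
    obtain ⟨q, hq⟩ := heven
    omega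
  -- the smaller set
  set X' := symmDiff (X \ Z) P with hX'def
  have hX'b : ∀ v, G.bd X' v = dl a v + dl b v := by
    intro v
    rw [hX'def, bd_sd, ← sd_sub X Z hZX, bd_sd, hX, hZb, hPb]
    have h1 := z2 (dl x v)
    have h2 := z2 (dl x' v)
    linear_combination h1 + h2
  have hX'n : (X'.filter (fun f => G.Crosses U f)).card = n - 2 := by
    have h1 : X'.filter (fun f => G.Crosses U f)
        = X.filter (fun f => G.Crosses U f) \ Z.filter (fun f => G.Crosses U f) := by
      ext f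
      simp only [hX'def, Finset.mem_filter, Finset.mem_symmDiff, Finset.mem_sdiff]
      constructor
      · rintro ⟨h1, h2⟩
        have hfP := hPc f h2
        rcases h1 with h1 | h1
        · exact ⟨⟨h1.1.1, h2⟩, fun h3 => h1.1.2 h3.1⟩
        · exact absurd h1.1 hfP
      · rintro ⟨⟨h1, h2⟩, h3⟩
        exact ⟨Or.inl ⟨⟨h1, fun h4 => h3 ⟨h4, h2⟩⟩, hPc f h2⟩, h2⟩
    rw [h1, Finset.card_sdiff_of_subset (Finset.filter_subset_filter _ hZX), hXn, hZ2]
  have hih := ih (n - 2) (by omega) X' hX'n hX'b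
  have hsg : sg c J X' = sg c J X - sg c J Z := by
    have h1 := cost_sd c J X'
    have h2 : symmDiff J X' = symmDiff (symmDiff J (X \ Z)) P := by
      rw [hX'def, symmDiff_assoc]
    rw [h2, cost_zero c _ P hP, cost_sd, sg_sub c J X Z hZX] at h1
    linarith
  rw [hsg] at hih
  have h3 : ((n - 2 : ℕ) : ℤ) = (n : ℤ) - 2 := by
    rw [Nat.cast_sub hn2]; rfl
  rw [h3] at hih
  linarith

open Classical in
def Concl (G : MG N E) (c : E → ℕ) (T : N → ZMod 2) : Prop :=
  ∃ (K : ℕ) (U : Fin K → Finset N),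
      (∀ i, ∑ x ∈ U i, T x = 1) ∧
      (∀ f, (univ.filter (fun i => G.Crosses (U i) f)).card ≤ c f) ∧
      (∀ i j, i < j → U i ⊆ U j ∨ Disjoint (U i) (U j)) ∧
      ∃ J : Finset E, (∀ x, G.bd J x = T x) ∧ ∑ f ∈ J, c f ≤ K

open Classical in
theorem main [Fintype N] [Fintype E] (G : MG N E) (T : N → ZMod 2)
    (hconn : ∀ S : N → ZMod 2, ∑ x, S x = 0 → ∃ J : Finset E, ∀ x, G.bd J x = S x)
    (hT : ∑ x, T x = 0) :
    ∀ (n : ℕ) (c : E → ℕ), ∑ f, c f = n →
      (∀ X : Finset E, (∀ v, G.bd X v = 0) → Even (∑ f ∈ X, c f)) → Concl G c T := by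
  intro n
  induction n using Nat.strong_induction_on with
  | _ n ih =>
  intro c hcn hev
  -- tau
  set ST : Set ℕ := {q | ∃ J : Finset E, (∀ x, G.bd J x = T x) ∧ ∑ f ∈ J, c f = q} with hST
  have hSTne : ST.Nonempty := by
    obtain ⟨J, hJ⟩ := hconn T hT
    exact ⟨_, J, hJ, rfl⟩
  obtain ⟨J0, hJ0, hJ0c⟩ := Nat.sInf_mem hSTne
  set tau := sInf ST with htaudef
  have htau : ∀ F : Finset E, (∀ x, G.bd F x = T x) → tau ≤ ∑ f ∈ F, c f :=
    fun F hF => Nat.sInf_le ⟨F, hF, rfl⟩
  by_cases ht0 : tau = 0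
  · refine ⟨0, fun i => i.elim0, fun i => i.elim0, fun f => by simp, fun i => i.elim0, J0, hJ0, ?_⟩
    rw [hJ0c, ht0]
  -- the minimal pair
  set SM : Set ℕ := {q | ∃ a b : N, a ≠ b ∧ ∃ J : Finset E,
    (∀ x, G.bd J x = T x + (dl a x + dl b x)) ∧ ∑ f ∈ J, c f = q} with hSM
  have hSMlt : ∃ q ∈ SM, q < tau := by
    have h1 : ∑ f ∈ J0, c f ≠ 0 := by rw [hJ0c]; exact ht0
    obtain ⟨f, hfJ, hf⟩ := Finset.exists_ne_zero_of_sum_ne_zero h1
    have h2 := cost_single c J0 f hfJ
    have hlr : G.l f ≠ G.r f := by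
      intro h
      have h3 := htau (symmDiff J0 {f}) (fun v => by
        rw [bd_sd, bd_single, hJ0, h, z2, add_zero])
      omega
    refine ⟨∑ g ∈ symmDiff J0 {f}, c g, ⟨G.l f, G.r f, hlr, _, fun v => ?_, rfl⟩, ?_⟩
    · rw [bd_sd, bd_single, hJ0]
    · omega
  have hSMne : SM.Nonempty := ⟨_, hSMlt.choose_spec.1⟩
  obtain ⟨a, b, hab, J, hJb, hJc⟩ := Nat.sInf_mem hSMne
  set m := sInf SM with hmdef
  have hm : ∀ a' b' : N, a' ≠ b' → ∀ J' : Finset E,
      (∀ x, G.bd J' x = T x + (dl a' x + dl b' x)) → m ≤ ∑ f ∈ J', c f :=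
    fun a' b' h J' hJ' => Nat.sInf_le ⟨a', b', h, J', hJ', rfl⟩
  have hmtau : m < tau := by
    obtain ⟨q, hq, hqt⟩ := hSMlt
    exact lt_of_le_of_lt (Nat.sInf_le hq) hqt
  -- the set U
  set U : Finset N := univ.filter (fun x => ∃ P : Finset E, (∀ f ∈ P, c f = 0) ∧
    ∀ v, G.bd P v = dl x v + dl b v) with hU
  have hzero : ∀ x ∈ U, ∃ P : Finset E, (∀ f ∈ P, c f = 0) ∧ ∀ v, G.bd P v = dl x v + dl b v :=
    fun x hx => (Finset.mem_filter.1 hx).2
  have hmemU : ∀ x (P : Finset E), (∀ f ∈ P, c f = 0) → (∀ v, G.bd P v = dl x v + dl b v) → x ∈ U :=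
    fun x P h1 h2 => Finset.mem_filter.2 ⟨Finset.mem_univ _, P, h1, h2⟩
  have hbU : b ∈ U := hmemU b ∅ (by simp) (fun v => by rw [bd_empty, z2])
  have haU : a ∉ U := by
    intro h
    obtain ⟨P, hP, hPb⟩ := hzero a h
    have h1 := htau (symmDiff J P) (fun v => by
      rw [bd_sd, hJb, hPb]
      have h1 := z2 (dl a v)
      have h2 := z2 (dl b v)
      linear_combination h1 + h2)
    rw [cost_zero c J P hP, hJc] at h1
    omega
  have hcross : ∀ f, G.Crosses U f → 0 < c f := by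
    intro f hf
    obtain ⟨x, hx, y, hy, hxy⟩ := crosses_ends G U f hf
    by_contra h0
    have h0' : c f = 0 := by omega
    obtain ⟨P, hP, hPb⟩ := hzero x hx
    refine hy (hmemU y (symmDiff P {f}) ?_ ?_)
    · intro g hg
      rw [Finset.mem_symmDiff, Finset.mem_singleton] at hg
      rcases hg with h | h
      · exact hP g h.1
      · rw [h.1]; exact h0'
    · intro v
      rw [bd_sd, bd_single, hPb, hxy v]
      have h1 := z2 (dl x v)
      linear_combination h1
  have hnoc : ∀ J' : Finset E, (∀ v, G.bd J' v = T v + (dl a v + dl b v)) → ∑ f ∈ J', c f = m →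
      ∀ f ∈ J', ¬ G.Crosses U f := by
    intro J' hJ' hJ'c f hf hfc
    obtain ⟨x, hx, y, hy, hxy⟩ := crosses_ends G U f hfc
    have hcf := hcross f hfc
    obtain ⟨P, hP, hPb⟩ := hzero x hx
    have h2 := cost_single c J' f hf
    have h3 : ∑ g ∈ symmDiff (symmDiff J' {f}) P, c g = ∑ g ∈ symmDiff J' {f}, c g :=
      cost_zero c _ P hP
    have h4 : ∀ v, G.bd (symmDiff (symmDiff J' {f}) P) v = T v + (dl a v + dl y v) := by
      intro v
      rw [bd_sd, bd_sd, bd_single, hJ', hPb, hxy v]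
      have h1 := z2 (dl x v)
      have h2 := z2 (dl b v)
      linear_combination h1 + h2
    by_cases hya : a = y
    · have h5 := htau (symmDiff (symmDiff J' {f}) P) (fun v => by
        rw [h4 v, hya, z2, add_zero])
      omega
    · have h5 := hm a y hya _ h4
      omega
  have hUT : ∑ x ∈ U, T x = 1 := by
    have h1 := sum_bd G U J
    rw [Finset.filter_eq_empty_iff.2 (fun f hf => hnoc J hJb hJc f hf), Finset.card_empty,
      Finset.sum_congr rfl (fun v _ => hJb v), Finset.sum_add_distrib, Finset.sum_add_distrib,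
      sum_dl, sum_dl, if_neg haU, if_pos hbU, zero_add, Nat.cast_zero] at h1
    have h2 : ∑ x ∈ U, T x = - 1 := by linear_combination h1
    rw [h2]; decide
  have hexc := excess G c U a b J tau hzero hcross (hnoc J hJb hJc)
    (fun J' hJ' => by
      rw [hJc]
      exact hm a b hab J' (fun v => by rw [hJ' v, hJb v]))
    (fun J' hJ' hc' => hnoc J' (fun v => by rw [hJ' v, hJb v]) (by rw [hc', hJc]))
    (fun F hF => htau F (fun v => by
      rw [hF v, hJb v]
      have h1 := z2 (dl a v + dl b v)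
      linear_combination h1))
    hev haU hbU
  have hE : ∀ F : Finset E, (∀ v, G.bd F v = T v) →
      tau + (F.filter (fun f => G.Crosses U f)).card ≤ ∑ f ∈ F, c f + 1 := by
    intro F hF
    have h1 := hexc _ (symmDiff J F) rfl (fun v => by
      rw [bd_sd, hJb, hF]
      have h1 := z2 (T v)
      linear_combination h1)
    have h2 := cost_sd c J (symmDiff J F)
    rw [symmDiff_symmDiff_cancel_left] at h2
    have h3 : (symmDiff J F).filter (fun f => G.Crosses U f) = F.filter (fun f => G.Crosses U f) := by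
      ext f
      simp only [Finset.mem_filter, Finset.mem_symmDiff]
      constructor
      · rintro ⟨h4 | h4, h5⟩
        · exact absurd h5 (hnoc J hJb hJc f h4.1)
        · exact ⟨h4.1, h5⟩
      · rintro ⟨h4, h5⟩
        exact ⟨Or.inr ⟨h4, fun h6 => hnoc J hJb hJc f h6 h5⟩, h5⟩
    rw [h3] at h1
    have h4 : (tau : ℤ) + ((F.filter (fun f => G.Crosses U f)).card : ℤ)
        ≤ ((∑ f ∈ F, c f : ℕ) : ℤ) + 1 := by linarith
    exact_mod_cast h4
  -- the new costs
  set c' : E → ℕ := fun f => c f - (if G.Crosses U f then 1 else 0) with hc'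
  have hcc' : ∀ f, c f = c' f + (if G.Crosses U f then 1 else 0) := by
    intro f
    simp only [hc']
    split_ifs with h
    · have := hcross f h; omega
    · omega
  have hsum : ∀ X : Finset E, ∑ f ∈ X, c f
      = ∑ f ∈ X, c' f + (X.filter (fun f => G.Crosses U f)).card := by
    intro X
    rw [Finset.card_filter, ← Finset.sum_add_distrib]
    exact Finset.sum_congr rfl fun f _ => hcc' f
  have hlt : ∑ f, c' f < n := by
    have h1 := hsum univ
    have h2 : 0 < ((univ : Finset E).filter (fun f => G.Crosses U f)).card := by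
      have h3 := sum_bd G U J0
      rw [Finset.sum_congr rfl (fun v _ => hJ0 v), hUT] at h3
      have h4 : (J0.filter (fun f => G.Crosses U f)).card ≠ 0 := by
        intro h5
        rw [h5] at h3
        simp at h3
      have h5 : (J0.filter (fun f => G.Crosses U f)).card
          ≤ ((univ : Finset E).filter (fun f => G.Crosses U f)).card :=
        Finset.card_le_card (Finset.filter_subset_filter _ (Finset.subset_univ _))
      omega
    omega
  obtain ⟨K', U', hodd', hload', hlam', J', hJ', hJ'c⟩ := ih _ hlt c' rfl (by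
    intro X hX
    have h1 := hev X hX
    have h2 := hsum X
    have h3 := sum_bd G U X
    rw [Finset.sum_congr rfl (fun v _ => hX v), Finset.sum_const_zero] at h3
    have h4 : Even (X.filter (fun f => G.Crosses U f)).card :=
      (ZMod.natCast_eq_zero_iff_even).1 h3.symm
    obtain ⟨p, hp⟩ := h1
    obtain ⟨q, hq⟩ := h4
    rw [hp, hq] at h2
    refine ⟨p - q, ?_⟩
    omega)
  refine ⟨K' + 1, Fin.cons U U', ?_, ?_, ?_, ?_⟩
  · intro i
    refine Fin.cases ?_ (fun i => ?_) i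
    · simpa using hUT
    · simpa using hodd' i
  · intro f
    rw [hcc' f, Fin.card_filter_univ_succ]
    simp only [Fin.cons_zero, Fin.cons_succ]
    have := hload' f
    split_ifs <;> omega
  · intro i
    refine Fin.cases ?_ (fun i => ?_) i
    · intro j
      refine Fin.cases (fun h => absurd h (lt_irrefl _)) (fun j _ => ?_) j
      simp only [Fin.cons_zero, Fin.cons_succ]
      have hsame : ∀ x ∈ U, (x ∈ U' j ↔ b ∈ U' j) := by
        intro x hx
        obtain ⟨P, hP, hPb⟩ := hzero x hx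
        have h1 := sum_bd G (U' j) P
        rw [Finset.filter_eq_empty_iff.2, Finset.card_empty,
          Finset.sum_congr rfl (fun v _ => hPb v), Finset.sum_add_distrib, sum_dl, sum_dl,
          Nat.cast_zero] at h1
        · by_cases h2 : x ∈ U' j <;> by_cases h3 : b ∈ U' j <;> simp [h2, h3] at h1 ⊢
        · intro f hf hfc
          have h2 := hload' f
          have h3 : c' f = 0 := by
            have := hcc' f
            have := hP f hf
            omega
          rw [h3, Nat.le_zero, Finset.card_eq_zero, Finset.filter_eq_empty_iff] at h2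
          exact h2 (Finset.mem_univ j) hfc
      by_cases hb' : b ∈ U' j
      · left
        intro x hx
        exact (hsame x hx).2 hb'
      · right
        rw [Finset.disjoint_left]
        intro x hx hx'
        exact hb' ((hsame x hx).1 hx')
    · intro j
      refine Fin.cases (fun h => absurd h (by simp)) (fun j h => ?_) j
      simp only [Fin.cons_succ]
      exact hlam' i j (by simpa using h)
  · refine ⟨J0, hJ0, ?_⟩
    have h1 := hE J' hJ'
    have h2 := hsum J'
    rw [hJ0c]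
    omega

end T1

open Classical in
theorem t1 : Stmt_T1 := by
  intro N E _ _ _ _ G c T hconn hT hc
  exact T1.main G T hconn hT _ c rfl (fun X _ => Finset.even_sum _ (fun f _ => hc f))

end Pool.Agent.H171R2.Tri
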